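import Pool.Agent.Helper92.SGE.Goals
import Pool.Agent.Helper29.BL.PS

/-!
Packet 13004 (SGE-HTL, MP_a41896_nt): `htl : HTL`, by helper39.
-/

set_option autoImplicit false

open MvPolynomial

namespace Pool.Agent.Helper39.SGE

open WeierstrassCurve Height Height.AdmissibleAbsValues
open Pool.Agent.Helper29.BL Pool.Agent.Helper92.Ru Pool.Agent.Helper42.SG
open Pool.Agent.Helper92.SGE

theorem htl : HTL := by
  intro K _ _ a b t hab hb ht
  by_cases ha : a = 0
  · have hb0 : b ≠ 0 := by
      rcases hab with h | h
      · exact absurd ha h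
      · exact h
    have e1 : (fun v : AbsoluteValue K ℝ => Real.log (max (v a) (v b))) =
        fun v => Real.log (v b) := by
      funext v
      rw [ha, map_zero, max_eq_right (v.nonneg b)]
    rw [e1, ht ha, PS_log hb0]
    refine ⟨FS_log hb0, ?_⟩
    simp
  · have e1 : (fun v : AbsoluteValue K ℝ => Real.log (max (v a) (v b))) =
        fun v => Real.log (v a) + Real.log (Mv v t) := by
      funext v
      have hva : 0 < v a := v.pos ha
      rw [hb ha, map_mul, ← Real.log_mul hva.ne' (Mv_pos v t).ne', Mv,
        mul_max_of_nonneg _ _ hva.le, mul_one, mul_comm (v a)]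
    rw [e1]
    refine ⟨(FS_log ha).add (FS_log_Mv t), ?_⟩
    rw [PS_add (FS_log ha) (FS_log_Mv t), PS_log ha, PS_log_Mv, zero_add]

end Pool.Agent.Helper39.SGE
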